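import Pool.Agent.LightEdge.Defs

/-!
Triangular faces of a plane graph, counted by the degrees of their vertices.
-/

namespace Pool.Agent.LightEdge

variable {V : Type}

/-- The number `f_{i,j,k}` of triangular faces whose three vertices have degrees `i`, `j`, `k`
(in some order). The dart `(v, x)` lies on the face with consecutive vertices
`v`, `x`, `next v x`; that face is a triangle when three steps lead back to the dart. -/
noncomputable def Rotation.triCount {G : SimpleGraph V} (R : Rotation G) (i j k : ℕ) : ℕ :=
  Nat.card {q : R.Face // ∃ d : G.Dart, Quot.mk _ d = q ∧ R.step (R.step (R.step d)) = d ∧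
    ({deg G d.fst, deg G d.snd, deg G (R.next d.fst d.snd)} : Multiset ℕ) = {i, j, k}}

end Pool.Agent.LightEdge
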