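import Pool.Agent.LightFace.Tri

namespace Pool.Agent.LightEdge

open Finset

set_option linter.unusedSectionVars false
set_option linter.unusedVariables false
set_option maxRecDepth 1000000

/-- row `v` lists the pairs (neighbour of `v`, next neighbour of `v`) -/
def tabB : List (List (ℕ × ℕ)) := [
  [(1, 2), (2, 3), (3, 4), (4, 5), (5, 6), (6, 7), (7, 8), (8, 1)],
  [(0, 8), (8, 9), (9, 10), (10, 2), (2, 0)],
  [(0, 1), (1, 10), (10, 11), (11, 3), (3, 0)],
  [(0, 2), (2, 11), (11, 12), (12, 4), (4, 0)],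
  [(0, 3), (3, 12), (12, 13), (13, 5), (5, 0)],
  [(0, 4), (4, 13), (13, 14), (14, 6), (6, 0)],
  [(0, 5), (5, 14), (14, 15), (15, 7), (7, 0)],
  [(0, 6), (6, 15), (15, 16), (16, 8), (8, 0)],
  [(0, 7), (7, 16), (16, 9), (9, 1), (1, 0)],
  [(8, 16), (16, 17), (17, 18), (18, 19), (19, 10), (10, 1), (1, 8)],
  [(1, 9), (9, 19), (19, 20), (20, 21), (21, 11), (11, 2), (2, 1)],
  [(2, 10), (10, 21), (21, 22), (22, 23), (23, 12), (12, 3), (3, 2)],
  [(3, 11), (11, 23), (23, 24), (24, 25), (25, 13), (13, 4), (4, 3)],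
  [(4, 12), (12, 25), (25, 26), (26, 27), (27, 14), (14, 5), (5, 4)],
  [(5, 13), (13, 27), (27, 28), (28, 29), (29, 15), (15, 6), (6, 5)],
  [(6, 14), (14, 29), (29, 30), (30, 31), (31, 16), (16, 7), (7, 6)],
  [(7, 15), (15, 31), (31, 32), (32, 17), (17, 9), (9, 8), (8, 7)],
  [(16, 32), (32, 33), (33, 18), (18, 9), (9, 16)],
  [(9, 17), (17, 33), (33, 34), (34, 35), (35, 19), (19, 9)],
  [(9, 18), (18, 35), (35, 20), (20, 10), (10, 9)],
  [(10, 19), (19, 35), (35, 36), (36, 37), (37, 21), (21, 10)],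
  [(10, 20), (20, 37), (37, 22), (22, 11), (11, 10)],
  [(11, 21), (21, 37), (37, 38), (38, 39), (39, 23), (23, 11)],
  [(11, 22), (22, 39), (39, 24), (24, 12), (12, 11)],
  [(12, 23), (23, 39), (39, 40), (40, 41), (41, 25), (25, 12)],
  [(12, 24), (24, 41), (41, 26), (26, 13), (13, 12)],
  [(13, 25), (25, 41), (41, 42), (42, 43), (43, 27), (27, 13)],
  [(13, 26), (26, 43), (43, 28), (28, 14), (14, 13)],
  [(14, 27), (27, 43), (43, 44), (44, 45), (45, 29), (29, 14)],
  [(14, 28), (28, 45), (45, 30), (30, 15), (15, 14)],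
  [(15, 29), (29, 45), (45, 46), (46, 47), (47, 31), (31, 15)],
  [(15, 30), (30, 47), (47, 32), (32, 16), (16, 15)],
  [(16, 31), (31, 47), (47, 48), (48, 33), (33, 17), (17, 16)],
  [(17, 32), (32, 48), (48, 49), (49, 50), (50, 34), (34, 18), (18, 17)],
  [(18, 33), (33, 50), (50, 51), (51, 35), (35, 18)],
  [(19, 18), (18, 34), (34, 51), (51, 52), (52, 36), (36, 20), (20, 19)],
  [(20, 35), (35, 52), (52, 53), (53, 37), (37, 20)],
  [(21, 20), (20, 36), (36, 53), (53, 54), (54, 38), (38, 22), (22, 21)],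
  [(22, 37), (37, 54), (54, 55), (55, 39), (39, 22)],
  [(23, 22), (22, 38), (38, 55), (55, 56), (56, 40), (40, 24), (24, 23)],
  [(24, 39), (39, 56), (56, 57), (57, 41), (41, 24)],
  [(25, 24), (24, 40), (40, 57), (57, 58), (58, 42), (42, 26), (26, 25)],
  [(26, 41), (41, 58), (58, 59), (59, 43), (43, 26)],
  [(27, 26), (26, 42), (42, 59), (59, 60), (60, 44), (44, 28), (28, 27)],
  [(28, 43), (43, 60), (60, 61), (61, 45), (45, 28)],
  [(29, 28), (28, 44), (44, 61), (61, 62), (62, 46), (46, 30), (30, 29)],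
  [(30, 45), (45, 62), (62, 63), (63, 47), (47, 30)],
  [(31, 30), (30, 46), (46, 63), (63, 64), (64, 48), (48, 32), (32, 31)],
  [(32, 47), (47, 64), (64, 49), (49, 33), (33, 32)],
  [(33, 48), (48, 64), (64, 65), (65, 66), (66, 50), (50, 33)],
  [(34, 33), (33, 49), (49, 66), (66, 67), (67, 51), (51, 34)],
  [(35, 34), (34, 50), (50, 67), (67, 68), (68, 52), (52, 35)],
  [(36, 35), (35, 51), (51, 68), (68, 69), (69, 53), (53, 36)],
  [(37, 36), (36, 52), (52, 69), (69, 70), (70, 54), (54, 37)],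
  [(38, 37), (37, 53), (53, 70), (70, 71), (71, 55), (55, 38)],
  [(39, 38), (38, 54), (54, 71), (71, 72), (72, 56), (56, 39)],
  [(40, 39), (39, 55), (55, 72), (72, 73), (73, 57), (57, 40)],
  [(41, 40), (40, 56), (56, 73), (73, 74), (74, 58), (58, 41)],
  [(42, 41), (41, 57), (57, 74), (74, 75), (75, 59), (59, 42)],
  [(43, 42), (42, 58), (58, 75), (75, 76), (76, 60), (60, 43)],
  [(44, 43), (43, 59), (59, 76), (76, 77), (77, 61), (61, 44)],
  [(45, 44), (44, 60), (60, 77), (77, 78), (78, 62), (62, 45)],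
  [(46, 45), (45, 61), (61, 78), (78, 79), (79, 63), (63, 46)],
  [(47, 46), (46, 62), (62, 79), (79, 80), (80, 64), (64, 47)],
  [(48, 47), (47, 63), (63, 80), (80, 65), (65, 49), (49, 48)],
  [(66, 49), (49, 64), (64, 80), (80, 81), (81, 66)],
  [(82, 67), (67, 50), (50, 49), (49, 65), (65, 81), (81, 83), (83, 82)],
  [(68, 51), (51, 50), (50, 66), (66, 82), (82, 68)],
  [(84, 69), (69, 52), (52, 51), (51, 67), (67, 82), (82, 85), (85, 84)],
  [(70, 53), (53, 52), (52, 68), (68, 84), (84, 70)],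
  [(86, 71), (71, 54), (54, 53), (53, 69), (69, 84), (84, 87), (87, 86)],
  [(72, 55), (55, 54), (54, 70), (70, 86), (86, 72)],
  [(88, 73), (73, 56), (56, 55), (55, 71), (71, 86), (86, 89), (89, 88)],
  [(74, 57), (57, 56), (56, 72), (72, 88), (88, 74)],
  [(90, 75), (75, 58), (58, 57), (57, 73), (73, 88), (88, 91), (91, 90)],
  [(76, 59), (59, 58), (58, 74), (74, 90), (90, 76)],
  [(92, 77), (77, 60), (60, 59), (59, 75), (75, 90), (90, 93), (93, 92)],
  [(78, 61), (61, 60), (60, 76), (76, 92), (92, 78)],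
  [(94, 79), (79, 62), (62, 61), (61, 77), (77, 92), (92, 95), (95, 94)],
  [(80, 63), (63, 62), (62, 78), (78, 94), (94, 80)],
  [(81, 65), (65, 64), (64, 63), (63, 79), (79, 94), (94, 96), (96, 81)],
  [(83, 66), (66, 65), (65, 80), (80, 96), (96, 97), (97, 83)],
  [(85, 68), (68, 67), (67, 66), (66, 83), (83, 98), (98, 85)],
  [(98, 82), (82, 66), (66, 81), (81, 97), (97, 98)],
  [(87, 70), (70, 69), (69, 68), (68, 85), (85, 99), (99, 87)],
  [(99, 84), (84, 68), (68, 82), (82, 98), (98, 99)],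
  [(89, 72), (72, 71), (71, 70), (70, 87), (87, 100), (100, 89)],
  [(100, 86), (86, 70), (70, 84), (84, 99), (99, 100)],
  [(91, 74), (74, 73), (73, 72), (72, 89), (89, 101), (101, 91)],
  [(101, 88), (88, 72), (72, 86), (86, 100), (100, 101)],
  [(93, 76), (76, 75), (75, 74), (74, 91), (91, 102), (102, 93)],
  [(102, 90), (90, 74), (74, 88), (88, 101), (101, 102)],
  [(95, 78), (78, 77), (77, 76), (76, 93), (93, 103), (103, 95)],
  [(103, 92), (92, 76), (76, 90), (90, 102), (102, 103)],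
  [(96, 80), (80, 79), (79, 78), (78, 95), (95, 104), (104, 96)],
  [(104, 94), (94, 78), (78, 92), (92, 103), (103, 104)],
  [(97, 81), (81, 80), (80, 94), (94, 104), (104, 97)],
  [(105, 98), (98, 83), (83, 81), (81, 96), (96, 104), (104, 106), (106, 105)],
  [(107, 99), (99, 85), (85, 82), (82, 83), (83, 97), (97, 105), (105, 107)],
  [(108, 100), (100, 87), (87, 84), (84, 85), (85, 98), (98, 107), (107, 108)],
  [(109, 101), (101, 89), (89, 86), (86, 87), (87, 99), (99, 108), (108, 109)],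
  [(110, 102), (102, 91), (91, 88), (88, 89), (89, 100), (100, 109), (109, 110)],
  [(111, 103), (103, 93), (93, 90), (90, 91), (91, 101), (101, 110), (110, 111)],
  [(112, 104), (104, 95), (95, 92), (92, 93), (93, 102), (102, 111), (111, 112)],
  [(106, 97), (97, 96), (96, 94), (94, 95), (95, 103), (103, 112), (112, 106)],
  [(107, 98), (98, 97), (97, 106), (106, 113), (113, 107)],
  [(105, 97), (97, 104), (104, 112), (112, 113), (113, 105)],
  [(108, 99), (99, 98), (98, 105), (105, 113), (113, 108)],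
  [(109, 100), (100, 99), (99, 107), (107, 113), (113, 109)],
  [(110, 101), (101, 100), (100, 108), (108, 113), (113, 110)],
  [(111, 102), (102, 101), (101, 109), (109, 113), (113, 111)],
  [(112, 103), (103, 102), (102, 110), (110, 113), (113, 112)],
  [(106, 104), (104, 103), (103, 111), (111, 113), (113, 106)],
  [(105, 106), (106, 112), (112, 111), (111, 110), (110, 109), (109, 108), (108, 107), (107, 105)]]

def MB (v x : Fin 114) : ℕ := ((tabB.getD v.val []).lookup x.val).getD 999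

def nxB (v x : Fin 114) : Fin 114 := Fin.ofNat 114 (MB v x)

/-- the extremal triangulation on 114 vertices -/
def Ex114 : SimpleGraph (Fin 114) where
  Adj v x := MB v x < 114
  symm := ⟨by decide +kernel⟩
  loopless := ⟨by decide +kernel⟩

instance : DecidableRel Ex114.Adj := fun v x => inferInstanceAs (Decidable (MB v x < 114))

def degTabB : List ℕ := [8, 5, 5, 5, 5, 5, 5, 5, 5, 7, 7, 7, 7, 7, 7, 7, 7, 5, 6, 5, 6, 5, 6, 5, 6, 5, 6, 5, 6, 5, 6, 5, 6, 7, 5, 7, 5, 7, 5, 7, 5, 7, 5, 7, 5, 7, 5, 7, 5, 6, 6, 6, 6, 6, 6, 6, 6, 6, 6, 6, 6, 6, 6, 6, 6, 5, 7, 5, 7, 5, 7, 5, 7, 5, 7, 5, 7, 5, 7, 5, 7, 6, 6, 5, 6, 5, 6, 5, 6, 5, 6, 5, 6, 5, 6, 5, 5, 7, 7, 7, 7, 7, 7, 7, 7, 5, 5, 5, 5, 5, 5, 5, 5, 8]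

theorem tri_allB : ∀ v x : Fin 114, MB v x < 114 →
    (MB x (nxB v x) < 114 ∧ MB (nxB v x) v < 114 ∧ nxB x (nxB v x) = v ∧
      nxB (nxB v x) v = x) := by
  decide +kernel

/-- a neighbour of each vertex -/
def bsB (v : Fin 114) : Fin 114 := Fin.ofNat 114 ([1, 0, 0, 0, 0, 0, 0, 0, 0, 1, 1, 2, 3, 4, 5, 6, 7, 9, 9, 9, 10, 10, 11, 11, 12, 12, 13, 13, 14, 14, 15, 15, 16, 17, 18, 18, 20, 20, 22, 22, 24, 24, 26, 26, 28, 28, 30, 30, 32, 33, 33, 34, 35, 36, 37, 38, 39, 40, 41, 42, 43, 44, 45, 46, 47, 49, 49, 50, 51, 52, 53, 54, 55, 56, 57, 58, 59, 60, 61, 62, 63, 65, 66, 66, 68, 68, 70, 70, 72, 72, 74, 74, 76, 76, 78, 78, 80, 81, 82, 84, 86, 88, 90, 92, 94, 97, 97, 98, 99, 100, 101, 102, 103, 105].getD v.val 0)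

theorem cyc_allB : ∀ v x : Fin 114, MB v x < 114 →
    (∃ k : Fin 8, (nxB v)^[k.val] (bsB v) = x) ∧ (∃ k : Fin 8, (nxB v)^[k.val] x = bsB v) := by
  decide +kernel

theorem deg_allB : ∀ v : Fin 114, Ex114.degree v = degTabB.getD v.val 0 := by
  decide +kernel

theorem bs_ltB : ∀ v : Fin 114, ¬ v = 0 → (bsB v).val < v.val ∧ MB (bsB v) v < 114 := by
  decide +kernel

end Pool.Agent.LightEdge
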