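import Pool.Agent.LightFace.Example

namespace Pool.Agent.LightEdge

open Finset

set_option linter.unusedSectionVars false
set_option linter.unusedVariables false
set_option maxRecDepth 1000000

/-- the rotation system of the example -/
def ExRB : Rotation Ex114 where
  next := nxB
  next_adj := by
    intro v x h
    have h1 := tri_allB v x h
    have h2 : Ex114.Adj (nxB v x) v := h1.2.1
    exact h2.symm
  cyclic := by
    intro v x y hx hy
    obtain ⟨-, k, hk⟩ := cyc_allB v x hx
    obtain ⟨⟨l, hl⟩, -⟩ := cyc_allB v y hy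
    refine ⟨l.val + k.val, ?_⟩
    rw [Function.iterate_add_apply, hk, hl]

theorem ex_triB (d : Ex114.Dart) : ExRB.Tr d.fst d.snd (ExRB.next d.fst d.snd) := by
  obtain ⟨h1, h2, h3, h4⟩ := tri_allB d.fst d.snd d.adj
  exact ⟨d.adj, h1, h2, rfl, h3, h4⟩

theorem ex_deg_fiveB (v : Fin 114) : 5 ≤ Ex114.degree v := by
  rw [deg_allB]
  revert v
  decide +kernel

theorem ex_connB : Ex114.Connected := by
  have h0 : ∀ k : ℕ, ∀ v : Fin 114, v.val = k → Ex114.Reachable 0 v := by
    intro k
    induction k using Nat.strong_induction_on with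
    | _ k ih =>
      intro v hv
      by_cases hk : v = 0
      · rw [hk]
      · have h1 := bs_ltB v hk
        have h2 := ih (bsB v).val (by omega) (bsB v) rfl
        have h3 : Ex114.Adj (bsB v) v := h1.2
        exact h2.trans h3.reachable
  have : Nonempty (Fin 114) := ⟨0⟩
  exact ⟨fun u v => ((h0 _ u rfl).symm).trans (h0 _ v rfl)⟩

theorem ex_planeB : ExRB.IsPlane := by
  have h2 : ∀ v, 2 ≤ Ex114.degree v := fun v => by have := ex_deg_fiveB v; omega
  have h1 := ExRB.faces_triangulation h2 ex_triB
  have h3 := Ex114.dart_card_eq_sum_degrees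
  have h4 := Ex114.dart_card_eq_twice_card_edges
  have h5 : Nat.card Ex114.edgeSet = Ex114.edgeFinset.card := by
    rw [Nat.card_eq_fintype_card, SimpleGraph.edgeFinset_card]
  have h6 : ∑ v, Ex114.degree v = 672 := by
    simp only [deg_allB]
    decide +kernel
  have h7 : Nat.card Ex114.ConnectedComponent = 1 := by
    have := ex_connB
    rw [Nat.card_eq_one_iff_unique]
    refine ⟨?_, ⟨Ex114.connectedComponentMk 0⟩⟩
    exact this.preconnected.subsingleton_connectedComponent
  have h8 : Nat.card (Fin 114) = 114 := by simp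
  unfold Rotation.IsPlane
  rw [h5, h7, h8]
  omega

theorem cnt (i j k s : ℕ) (h : ∑ v : Fin 114, ((Ex114.neighborFinset v).filter (fun x =>
    ({degTabB.getD v.val 0, degTabB.getD x.val 0, degTabB.getD (nxB v x).val 0} : Multiset ℕ)
      = {i, j, k})).card = 3 * s) : ExRB.triCount i j k = s := by
  have h1 := ExRB.triCount_eq (fun v => by have := ex_deg_fiveB v; omega) ex_triB i j k
  simp only [deg_allB] at h1
  have h2 : ExRB.next = nxB := rfl
  rw [h2] at h1
  rw [h] at h1
  omega

theorem c555 : ExRB.triCount 5 5 5 = 0 := cnt _ _ _ _ (by decide +kernel)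
theorem c556 : ExRB.triCount 5 5 6 = 0 := cnt _ _ _ _ (by decide +kernel)
theorem c557 : ExRB.triCount 5 5 7 = 16 := cnt _ _ _ _ (by decide +kernel)
theorem c566 : ExRB.triCount 5 6 6 = 16 := cnt _ _ _ _ (by decide +kernel)

end Pool.Agent.LightEdge
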