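import Pool.Agent.LightFace.Defs
import Pool.Agent.LightEdge.Example2

namespace Pool.Agent.LightEdge

open Finset

set_option linter.unusedSectionVars false
set_option linter.unusedVariables false

namespace Rotation

variable {V : Type} [Fintype V] [DecidableEq V] {G : SimpleGraph V} [DecidableRel G.Adj]

/-- the face of a dart -/
def mkF (R : Rotation G) (d : G.Dart) : R.Face :=
  Quot.mk (fun d d' : G.Dart => R.step d = d') d

theorem mkF_step (R : Rotation G) (d : G.Dart) : R.mkF (R.step d) = R.mkF d :=
  (Quot.sound (r := fun d d' : G.Dart => R.step d = d') rfl).symm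

theorem step3 (R : Rotation G) (hT : ∀ d : G.Dart, R.Tr d.fst d.snd (R.next d.fst d.snd))
    (d : G.Dart) : R.step (R.step (R.step d)) = d := by
  have h := hT d
  have e1 : R.next (R.next d.fst d.snd) d.fst = d.snd := h.e3
  have e2 : R.next d.snd (R.next d.fst d.snd) = d.fst := h.e2
  refine SimpleGraph.Dart.ext _ _ (Prod.ext ?_ ?_)
  · show R.next (R.next (R.next d.fst d.snd) d.fst) (R.next d.fst d.snd) = d.fst
    rw [e1, e2]
  · show R.next (R.next d.fst d.snd) d.fst = d.snd
    exact e1

theorem mkF_eq (R : Rotation G) (hT : ∀ d : G.Dart, R.Tr d.fst d.snd (R.next d.fst d.snd))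
    {d e : G.Dart} (h : R.mkF e = R.mkF d) :
    e = d ∨ e = R.step d ∨ e = R.step (R.step d) := by
  classical
  let f : G.Dart → Finset G.Dart := fun d => {d, R.step d, R.step (R.step d)}
  have hf : ∀ d, f (R.step d) = f d := by
    intro d
    show ({R.step d, R.step (R.step d), R.step (R.step (R.step d))} : Finset G.Dart) =
      {d, R.step d, R.step (R.step d)}
    rw [R.step3 hT]
    ext e
    simp only [mem_insert, mem_singleton]
    tauto
  let F : R.Face → Finset G.Dart := Quot.lift f (fun a b (h : R.step a = b) => by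
    rw [← h]; exact (hf a).symm)
  have h1 : f e = f d := congrArg F h
  have h2 : e ∈ f e := mem_insert_self _ _
  rw [h1] at h2
  simpa [f] using h2

open Classical in
theorem tri_faces (R : Rotation G) (h2 : ∀ v, 2 ≤ G.degree v)
    (hT : ∀ d : G.Dart, R.Tr d.fst d.snd (R.next d.fst d.snd)) (P : G.Dart → Prop)
    (hP : ∀ d, P (R.step d) ↔ P d) :
    3 * Nat.card {q : R.Face // ∃ d : G.Dart, R.mkF d = q ∧ R.step (R.step (R.step d)) = d ∧ P d}
      = ((univ : Finset G.Dart).filter P).card := by
  have : Finite R.Face := by unfold Face; infer_instance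
  let _i : Fintype R.Face := Fintype.ofFinite _
  rw [Nat.card_eq_fintype_card, Fintype.card_subtype]
  have hm : ∀ d ∈ (univ : Finset G.Dart).filter P, R.mkF d ∈ (univ : Finset R.Face).filter
      (fun q => ∃ d : G.Dart, R.mkF d = q ∧ R.step (R.step (R.step d)) = d ∧ P d) := by
    intro d hd
    rw [mem_filter] at hd ⊢
    exact ⟨mem_univ _, d, rfl, R.step3 hT d, hd.2⟩
  rw [card_eq_sum_card_fiberwise hm]
  have key : ∀ q ∈ (univ : Finset R.Face).filter
      (fun q => ∃ d : G.Dart, R.mkF d = q ∧ R.step (R.step (R.step d)) = d ∧ P d),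
      (((univ : Finset G.Dart).filter P).filter (fun d => R.mkF d = q)).card = 3 := by
    intro q hq
    rw [mem_filter] at hq
    obtain ⟨-, d, hd, -, hPd⟩ := hq
    have hS : ((univ : Finset G.Dart).filter P).filter (fun d => R.mkF d = q) =
        {d, R.step d, R.step (R.step d)} := by
      ext e
      rw [mem_filter, mem_filter, mem_insert, mem_insert, mem_singleton]
      constructor
      · rintro ⟨-, he⟩
        exact R.mkF_eq hT (he.trans hd.symm)
      · rintro (rfl | rfl | rfl)
        · exact ⟨⟨mem_univ _, hPd⟩, hd⟩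
        · exact ⟨⟨mem_univ _, (hP d).2 hPd⟩, (R.mkF_step d).trans hd⟩
        · exact ⟨⟨mem_univ _, (hP _).2 ((hP d).2 hPd)⟩,
            ((R.mkF_step _).trans (R.mkF_step d)).trans hd⟩
    rw [hS]
    have n1 : R.step d ≠ d := R.step_ne d
    have n2 : R.step (R.step d) ≠ d := R.step_step_ne h2 d
    have n3 : R.step (R.step d) ≠ R.step d := R.step_ne _
    rw [card_insert_of_notMem, card_insert_of_notMem, card_singleton]
    · rw [mem_singleton]; exact n3.symm
    · rw [mem_insert, mem_singleton]
      rintro (h | h)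
      · exact n1 h.symm
      · exact n2 h.symm
  rw [sum_congr rfl key, sum_const, smul_eq_mul, mul_comm]

theorem perm3 (a b c : ℕ) : ({c, a, b} : Multiset ℕ) = {a, b, c} := by
  show c ::ₘ a ::ₘ {b} = a ::ₘ b ::ₘ {c}
  rw [Multiset.cons_swap]
  congr 1
  exact Multiset.cons_swap c b 0

theorem card_darts (P : V → V → Prop) [DecidableRel P] [DecidablePred (fun d : G.Dart => P d.fst d.snd)] :
    ((univ : Finset G.Dart).filter (fun d => P d.fst d.snd)).card =
      ∑ v : V, ((G.neighborFinset v).filter (fun x => P v x)).card := by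
  have hm : ∀ d ∈ (univ : Finset G.Dart).filter (fun d => P d.fst d.snd),
      d.fst ∈ (univ : Finset V) := fun d _ => mem_univ _
  rw [card_eq_sum_card_fiberwise hm]
  refine sum_congr rfl fun v _ => ?_
  refine card_bij (fun d _ => d.snd) ?_ ?_ ?_
  · intro d hd
    rw [mem_filter, mem_filter] at hd
    rw [mem_filter, SimpleGraph.mem_neighborFinset]
    obtain ⟨⟨-, hd1⟩, hd2⟩ := hd
    subst hd2
    exact ⟨d.adj, hd1⟩
  · intro d hd d' hd' hh
    rw [mem_filter] at hd hd'
    exact SimpleGraph.Dart.ext _ _ (Prod.ext (hd.2.trans hd'.2.symm) hh)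
  · intro w hw
    rw [mem_filter, SimpleGraph.mem_neighborFinset] at hw
    refine ⟨⟨(v, w), hw.1⟩, ?_, rfl⟩
    rw [mem_filter, mem_filter]
    exact ⟨⟨mem_univ _, hw.2⟩, rfl⟩

/-- the number of triangular faces by counting darts -/
theorem triCount_eq (R : Rotation G) (h2 : ∀ v, 2 ≤ G.degree v)
    (hT : ∀ d : G.Dart, R.Tr d.fst d.snd (R.next d.fst d.snd)) (i j k : ℕ) :
    3 * R.triCount i j k = ∑ v : V, ((G.neighborFinset v).filter (fun x =>
      ({G.degree v, G.degree x, G.degree (R.next v x)} : Multiset ℕ) = {i, j, k})).card := by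
  classical
  have h := R.tri_faces h2 hT (fun d => ({deg G d.fst, deg G d.snd,
    deg G (R.next d.fst d.snd)} : Multiset ℕ) = {i, j, k}) (by
      intro d
      have e1 : (R.step d).fst = R.next d.fst d.snd := rfl
      have e2 : (R.step d).snd = d.fst := rfl
      have e3 : R.next (R.next d.fst d.snd) d.fst = d.snd := (hT d).e3
      rw [e1, e2, e3, perm3])
  have h' := card_darts (G := G) (fun v x =>
    ({G.degree v, G.degree x, G.degree (R.next v x)} : Multiset ℕ) = {i, j, k})
  rw [← h']
  refine h.trans ?_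
  simp only [deg_eq]

end Rotation

end Pool.Agent.LightEdge
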